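import Pool.Agent.helper81.EP.SpecO

/-!
# Project ep (MP_ebc808_nt), module OI
-/

set_option autoImplicit false

open Finset
open scoped Real

noncomputable section

namespace Pool.Agent.EP

theorem OI (h : OR_stmt) : OI_stmt := by
  classical
  intro d L B x hd h3
  have hd0 : 0 < d := by omega
  have hsub : {u ∈ Finset.Ico x (x + L) | (d : ℤ) ∣ 3 * u ^ 2 + B ∧ Int.gcd u d = 1} ⊆
      (Finset.range (L / d + 1)).biUnion (fun i =>
        {u ∈ Finset.Ico (x + i * d) (x + i * d + d) | (d : ℤ) ∣ 3 * u ^ 2 + B ∧ Int.gcd u d = 1}) := by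
    intro u hu
    rw [Finset.mem_filter, Finset.mem_Ico] at hu
    obtain ⟨⟨h1, h2⟩, h4⟩ := hu
    rw [Finset.mem_biUnion]
    have hdz : (0 : ℤ) < (d : ℤ) := by exact_mod_cast hd0
    have hq0 : 0 ≤ (u - x) / (d : ℤ) := Int.ediv_nonneg (by omega) hdz.le
    refine ⟨((u - x) / (d : ℤ)).toNat, ?_, ?_⟩
    · rw [Finset.mem_range]
      have h5 : (u - x) / (d : ℤ) ≤ (L : ℤ) / (d : ℤ) := Int.ediv_le_ediv hdz (by omega)
      have h6 : (L : ℤ) / (d : ℤ) = ((L / d : ℕ) : ℤ) := by push_cast; rfl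
      omega
    · rw [Finset.mem_filter, Finset.mem_Ico, Int.toNat_of_nonneg hq0]
      have h5 := Int.mul_ediv_add_emod (u - x) (d : ℤ)
      have h6 := Int.emod_nonneg (u - x) hdz.ne'
      have h7 := Int.emod_lt_of_pos (u - x) hdz
      have h8 : (d : ℤ) * ((u - x) / (d : ℤ)) = (u - x) / (d : ℤ) * (d : ℤ) := mul_comm _ _
      refine ⟨⟨by linarith, by linarith⟩, h4⟩
  refine (Finset.card_le_card hsub).trans ?_
  refine Finset.card_biUnion_le.trans ?_
  refine (Finset.sum_le_card_nsmul (Finset.range (L / d + 1)) _ (#d.divisors)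
    fun (i : ℕ) _ => h d B (x + (i : ℤ) * d) hd h3).trans ?_
  rw [Finset.card_range, smul_eq_mul]

end Pool.Agent.EP
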